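import Pool.Agent.P.MP_c18ddb_co.X.Final
import Pool.Agent.P.MP_c18ddb_co.R.RCm

namespace Pool.Agent.Results.MP_c18ddb_co.Exact

open Pool.Agent.P.MP_c18ddb_co

/-- The exact value of `M n` for all large `n`. -/
theorem result : ∃ n0 : ℕ, ∀ n : ℕ, n0 ≤ n →
    M n = (2 * n * (n + 2) / 7 - if n % 14 ∈ ({2, 3, 7, 12} : Finset ℕ) then 1 else 0) ^ 2 / 4 -
      if n % 28 ∈ ({8, 10, 14, 15, 18, 19, 23, 25} : Finset ℕ) then 1 else 0 :=
  X.exact R.rc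

end Pool.Agent.Results.MP_c18ddb_co.Exact
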